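import Pool.Agent.H97.PR.Targets

/-!
Resolution over parities at the scale of SETH (MP_c62aed_lc), (GDA): the number of the tables which
fail for given `V`, `a`, `J`, `z`, by Janson's inequality.
-/

set_option autoImplicit false

namespace Pool.Agent.H75.PRY

open Finset Pool.Agent.H97.PR

/-- the places of the tables -/
abbrev Om {n N : ℕ} (blk : Fin n → Fin N) : Type :=
  (v : Fin N) × ({i : Fin n // blk i = v} → ZMod 2)

open Classical in
/-- the places which are used by `x` in the blocks of `J` -/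
noncomputable def AA {n N : ℕ} (blk : Fin n → Fin N) (J : Finset (Fin N)) (x : E n) :
    Finset (Om blk) :=
  J.image fun v => ⟨v, fun i => x i.1⟩

theorem mem_AA {n N : ℕ} {blk : Fin n → Fin N} {J : Finset (Fin N)} {x : E n} {o : Om blk} :
    o ∈ AA blk J x ↔ o.1 ∈ J ∧ o.2 = fun i => x i.1 := by
  classical
  unfold AA
  rw [mem_image]
  constructor
  · rintro ⟨v, hv, rfl⟩
    exact ⟨hv, rfl⟩
  · rintro ⟨h1, h2⟩
    obtain ⟨v, c⟩ := o
    simp only at h1 h2
    exact ⟨v, h1, by rw [h2]⟩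

theorem place_inj {n N : ℕ} (blk : Fin n → Fin N) (x : E n) :
    Function.Injective fun v : Fin N => (⟨v, fun i => x i.1⟩ : Om blk) := by
  intro v v' h
  exact congrArg Sigma.fst h

theorem card_AA {n N : ℕ} (blk : Fin n → Fin N) (J : Finset (Fin N)) (x : E n) :
    (AA blk J x).card = J.card := by
  classical
  unfold AA
  exact card_image_of_injective _ (place_inj blk x)

theorem sub_mem_zr {n N : ℕ} {blk : Fin n → Fin N} {x y : E n} {v : Fin N} :
    x - y ∈ zr blk {v} ↔
      (fun i : {i : Fin n // blk i = v} => x i.1) = fun i => y i.1 := by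
  constructor
  · intro h
    funext i
    have := h i.1 (by rw [mem_singleton]; exact i.2)
    exact sub_eq_zero.1 this
  · intro h i hi
    rw [mem_singleton] at hi
    have := congrFun h ⟨i, hi⟩
    show x i - y i = 0
    exact sub_eq_zero.2 this

open Classical in
theorem inter_AA {n N : ℕ} (blk : Fin n → Fin N) [DecidableEq (Om blk)] (J : Finset (Fin N))
    (x y : E n) :
    AA blk J x ∩ AA blk J y = AA blk (J.filter fun v => x - y ∈ zr blk {v}) x := by
  ext o
  rw [mem_inter, mem_AA, mem_AA, mem_AA, mem_filter, sub_mem_zr]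
  obtain ⟨v, c⟩ := o
  simp only
  constructor
  · rintro ⟨⟨h1, h2⟩, h3, h4⟩
    exact ⟨⟨h1, by rw [← h2, h4]⟩, h2⟩
  · rintro ⟨⟨h1, h2⟩, h3⟩
    exact ⟨⟨h1, h3⟩, h1, by rw [h3, h2]⟩

open Classical in
/-- the weight of a difference -/
noncomputable def wt {n N : ℕ} (blk : Fin n → Fin N) (J : Finset (Fin N)) (w : E n) : ℝ :=
  if ∃ v ∈ J, w ∈ zr blk {v} then
    (1 / 4 : ℝ) ^ J.card * 2 ^ (J.filter fun v => w ∈ zr blk {v}).card else 0

open Classical in
/-- the weight of a pair -/
theorem weight {n N : ℕ} (blk : Fin n → Fin N) (i1 : DecidableEq (Om blk))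
    (J : Finset (Fin N)) (x y : E n) (i2 : Decidable (Disjoint (AA blk J x) (AA blk J y))) :
    (@ite ℝ (Disjoint (AA blk J x) (AA blk J y)) i2 0
      ((1 / 2 : ℝ) ^ (AA blk J x ∪ AA blk J y).card)) = wt blk J (x - y) := by
  unfold wt
  have h1 : Disjoint (AA blk J x) (AA blk J y) ↔ ¬ ∃ v ∈ J, x - y ∈ zr blk {v} := by
    rw [disjoint_iff_inter_eq_empty, inter_AA, ← card_eq_zero, card_AA, card_eq_zero,
      filter_eq_empty_iff]
    push Not
    rfl
  by_cases h : ∃ v ∈ J, x - y ∈ zr blk {v}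
  · rw [if_neg (fun h2 => h1.1 h2 h), if_pos h]
    have h2 := card_union_add_card_inter (AA blk J x) (AA blk J y)
    rw [inter_AA, card_AA, card_AA, card_AA] at h2
    have h3 : (1 / 4 : ℝ) ^ J.card = (1 / 2) ^ (J.card + J.card) := by
      rw [pow_add, ← mul_pow]
      norm_num
    rw [h3, ← h2, pow_add, mul_assoc, ← mul_pow]
    norm_num
  · rw [if_pos (h1.2 h), if_neg h]

/-- the table as a set of places -/
noncomputable def TT {n N : ℕ} {blk : Fin n → Fin N} (z : Fin N → Bool) (g : Gad blk) :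
    Finset (Om blk) :=
  univ.filter fun o => g o.1 o.2 ≠ z o.1

theorem TT_inj {n N : ℕ} {blk : Fin n → Fin N} (z : Fin N → Bool) :
    Function.Injective (TT (blk := blk) z) := by
  intro g g' h
  funext v c
  have h1 : (⟨v, c⟩ : Om blk) ∈ TT z g ↔ (⟨v, c⟩ : Om blk) ∈ TT z g' := by rw [h]
  simp only [TT, mem_filter, mem_univ, true_and] at h1
  revert h1
  cases g v c <;> cases g' v c <;> cases z v <;> simp

theorem card_Gad {n N : ℕ} (blk : Fin n → Fin N) :
    Fintype.card (Gad blk) = 2 ^ Fintype.card (Om blk) := by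
  rw [Fintype.card_sigma, Fintype.card_pi, ← Finset.prod_pow_eq_pow_sum]
  refine Finset.prod_congr rfl fun v _ => ?_
  rw [Fintype.card_fun, Fintype.card_bool]

theorem disj_TT {n N : ℕ} {blk : Fin n → Fin N} (z : Fin N → Bool) (g : Gad blk)
    (J : Finset (Fin N)) (x : E n) :
    Disjoint (AA blk J x) (TT z g) ↔ ∀ v ∈ J, gv g x v = z v := by
  rw [disjoint_left]
  constructor
  · intro h v hv
    have h1 := h (mem_AA (o := ⟨v, fun i => x i.1⟩).2 ⟨hv, rfl⟩)
    simp only [TT, mem_filter, mem_univ, true_and, not_not] at h1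
    exact h1
  · rintro h ⟨v, c⟩ ho
    rw [mem_AA] at ho
    obtain ⟨h1, h2⟩ := ho
    simp only at h1 h2
    simp only [TT, mem_filter, mem_univ, true_and, not_not]
    rw [h2]
    exact h v h1

open Classical in
/-- the number of the points of the coset with the pattern `z` -/
theorem cnt_eq {n N : ℕ} {blk : Fin n → Fin N} (V : Submodule (ZMod 2) (E n)) (a : E n)
    (J : Finset (Fin N)) (z : Fin N → Bool) (g : Gad blk) :
    cnt (fun x => x - a ∈ V ∧ ∀ v ∈ J, gv g x v = z v) =
      (univ.filter fun w : V => Disjoint (AA blk J (a + w.1)) (TT z g)).card := by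
  unfold cnt
  symm
  refine card_bij (fun w _ => a + w.1) ?_ ?_ ?_
  · intro w hw
    simp only [mem_filter, mem_univ, true_and] at hw ⊢
    refine ⟨?_, (disj_TT z g J _).1 hw⟩
    rw [add_sub_cancel_left]
    exact w.2
  · intro w _ w' _ h
    exact Subtype.ext (add_left_cancel h)
  · intro x hx
    simp only [mem_filter, mem_univ, true_and] at hx
    refine ⟨⟨x - a, hx.1⟩, ?_, by simp⟩
    refine mem_filter.2 ⟨mem_univ _, (disj_TT z g J _).2 ?_⟩
    simpa using hx.2

/-- the double sum -/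
theorem dsum {n : ℕ} (V : Submodule (ZMod 2) (E n)) [Fintype V] (f : E n → ℝ) :
    ∑ x : V, ∑ y : V, f (x.1 - y.1) = Fintype.card V * ∑ w : V, f w.1 := by
  have h : ∀ x : V, ∑ y : V, f (x.1 - y.1) = ∑ w : V, f w.1 := fun x =>
    Fintype.sum_equiv (Equiv.subLeft x) _ _ fun y => rfl
  rw [sum_congr rfl fun x _ => h x, sum_const, card_univ, nsmul_eq_mul]

theorem pf_GDA (hJAN : T_JAN) (hGMM : T_GMM) (hRKC : T_RKC) : T_GDA := by
  classical
  intro n N blk γ V a J z hJ hJγ hrk
  have hVc : (Fintype.card V : ℝ) = 2 ^ dm V := by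
    have h1 := (hRKC n N blk V J).1
    have h2 : Fintype.card V = 2 ^ dm V := by
      rw [← h1, cnt, Fintype.card_subtype]
    rw [h2]
    push_cast
    rfl
  have hJ0 : (0 : ℝ) < J.card := by exact_mod_cast hJ.card_pos
  set μ : ℝ := 2 ^ dm V * (1 / 2) ^ J.card with hμ
  have hμ0 : 0 < μ := by positivity
  have hμs : μ = ∑ w : V, (1 / 2 : ℝ) ^ (AA blk J (a + w.1)).card := by
    simp only [card_AA]
    rw [sum_const, card_univ, nsmul_eq_mul, hVc]
  have hD0 : 0 < 8 * μ ^ 2 * J.card / 2 ^ γ := by positivity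
  have hds : ∑ x : V, ∑ y : V, wt blk J (x.1 - y.1) ≤ 8 * μ ^ 2 * J.card / 2 ^ γ := by
    rw [dsum, hVc]
    have h2 : (∑ w : V, wt blk J w.1) = (1 / 4 : ℝ) ^ J.card *
          ∑ w ∈ univ.filter (fun w : E n => w ∈ V ∧ ∃ v ∈ J, w ∈ zr blk {v}),
            (2 : ℝ) ^ (J.filter fun v => w ∈ zr blk {v}).card := by
      rw [mul_sum, ← filter_filter, sum_filter (s := univ.filter fun w : E n => w ∈ V)]
      exact (sum_subtype (univ.filter fun w : E n => w ∈ V) (fun w => by simp) _).symm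
    rw [h2]
    have h3 := hGMM n N blk γ V J hJγ hrk
    have h4 : (2 : ℝ) ^ dm V * ((1 / 4) ^ J.card * (8 * 2 ^ dm V * (J.card : ℝ) / 2 ^ γ)) =
        8 * μ ^ 2 * J.card / 2 ^ γ := by
      have h5 : (1 / 4 : ℝ) ^ J.card = (1 / 2) ^ J.card * (1 / 2) ^ J.card := by
        rw [← mul_pow]
        norm_num
      rw [hμ, h5]
      ring
    rw [← h4]
    gcongr
  have hj := hJAN (Om blk) V (fun w => AA blk J (a + w.1)) μ (8 * μ ^ 2 * J.card / 2 ^ γ) hD0 hμs
    (le_trans (le_of_eq (sum_congr rfl fun x _ => sum_congr rfl fun y _ => by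
      rw [weight, add_sub_add_left_eq_sub])) hds)
  have he : μ ^ 2 / (8 * (8 * μ ^ 2 * J.card / 2 ^ γ)) = 2 ^ γ / (64 * (J.card : ℝ)) := by
    have h1 : μ ^ 2 ≠ 0 := by positivity
    have h2 : (2 : ℝ) ^ γ ≠ 0 := by positivity
    rw [div_eq_div_iff (by positivity) (by positivity)]
    field_simp
    norm_num
  rw [he] at hj
  rw [card_Gad]
  push_cast
  refine le_trans ?_ hj
  rw [Nat.cast_le]
  refine card_le_card_of_injOn (TT z) ?_ (TT_inj z).injOn
  intro g hg
  rw [mem_coe, mem_filter] at hg ⊢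
  refine ⟨mem_univ _, ?_⟩
  have h1 := hg.2
  rw [cnt_eq, not_le] at h1
  have h2 : (2 : ℝ) ^ (J.card + 1) *
      (univ.filter fun w : V => Disjoint (AA blk J (a + w.1)) (TT z g)).card < 2 ^ dm V := by
    exact_mod_cast h1
  rw [hμ, one_div, inv_pow, ← div_eq_mul_inv, le_div_iff₀ (by positivity)]
  rw [pow_succ] at h2
  refine le_of_eq_of_le ?_ h2.le
  ring_nf

end Pool.Agent.H75.PRY
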